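import Pool.Agent.Q275.GapBlocks

/-!
# The edge numbers of edge-maximal minor-free graphs need not fill the gap

For the suitable set `{P₄, K₁,₃}` (the free graphs are those whose components have at most three
vertices) the class is linearly impure, `gap(n)/n → 1/2`, while `|E(n)|/gap(n) → 1/3`.
-/

set_option autoImplicit false

namespace Pool.Agent.Results.MP_4dddeb_co.ResidueClasses

open Pool.Agent.Q275.Gap Filter

theorem result : ∃ 𝓗 : GraphSet, Suitable 𝓗 ∧
    0 < limp 𝓗 ∧
    Tendsto (fun n : ℕ => ((E 𝓗 n).ncard : ℝ) / (gap 𝓗 n : ℝ)) atTop (nhds (1 / 3)) ∧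
    ∀ C : ℝ, ∃ n : ℕ, 1 ≤ n ∧ C < (gap 𝓗 n : ℝ) - ((E 𝓗 n).ncard : ℝ) := by
  refine ⟨pair, suitable_pair, ?_, ?_, ?_⟩
  · -- linear impurity
    have hb : Tendsto (fun n : ℕ => (gap pair n : ℝ) / n) atTop (nhds (1 / 2)) := by
      have h1 : Tendsto (fun n : ℕ => (1 / 2 : ℝ) - (9 / 2) / n) atTop (nhds (1 / 2 - 0)) :=
        tendsto_const_nhds.sub (tendsto_const_div_atTop_nhds_zero_nat _)
      rw [sub_zero] at h1
      refine tendsto_of_tendsto_of_tendsto_of_le_of_le' h1 tendsto_const_nhds ?_ ?_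
      · filter_upwards [eventually_ge_atTop 6] with n hn
        have hpos : (0 : ℝ) < n := by exact_mod_cast (by omega : 0 < n)
        have := gap_ge hn
        have h' : (n : ℝ) ≤ 2 * gap pair n + 9 := by exact_mod_cast this
        rw [le_div_iff₀ hpos, sub_mul, div_mul_cancel₀ _ hpos.ne']
        linarith
      · filter_upwards [eventually_ge_atTop 6] with n hn
        have hpos : (0 : ℝ) < n := by exact_mod_cast (by omega : 0 < n)
        have := two_gap_le hn
        have h' : (2 : ℝ) * gap pair n ≤ n := by exact_mod_cast this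
        rw [div_le_iff₀ hpos]
        linarith
    unfold limp
    rw [hb.liminf_eq]
    norm_num
  · -- the ratio
    have h1 : Tendsto (fun n : ℕ => (1 / 3 : ℝ) - (5 / 3) / n) atTop (nhds (1 / 3 - 0)) :=
      tendsto_const_nhds.sub (tendsto_const_div_atTop_nhds_zero_nat _)
    rw [sub_zero] at h1
    have h2 : Tendsto (fun n : ℕ => (1 / 3 : ℝ) + 60 / n) atTop (nhds (1 / 3 + 0)) :=
      tendsto_const_nhds.add (tendsto_const_div_atTop_nhds_zero_nat _)
    rw [add_zero] at h2
    refine tendsto_of_tendsto_of_tendsto_of_le_of_le' h1 h2 ?_ ?_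
    · filter_upwards [eventually_ge_atTop 20] with n hn
      have hn6 : 6 ≤ n := by omega
      have hpos : (0 : ℝ) < n := by exact_mod_cast (by omega : 0 < n)
      have a1 : (n : ℝ) ≤ 2 * gap pair n + 9 := by exact_mod_cast gap_ge hn6
      have a2 : (2 : ℝ) * gap pair n ≤ n := by exact_mod_cast two_gap_le hn6
      have a3 : (n : ℝ) ≤ 6 * (E pair n).ncard + 5 := by exact_mod_cast ncard_ge hn6
      have hn20 : (20 : ℝ) ≤ n := by exact_mod_cast hn
      have hg : (0 : ℝ) < gap pair n := by linarith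
      rw [le_div_iff₀ hg]
      have hle : (1 / 3 : ℝ) - (5 / 3) / n ≥ 0 := by
        have : (5 / 3 : ℝ) / n ≤ 1 / 3 := by rw [div_le_iff₀ hpos]; linarith
        linarith
      calc ((1 / 3 : ℝ) - (5 / 3) / n) * gap pair n ≤ ((1 / 3 : ℝ) - (5 / 3) / n) * (n / 2) := by
            apply mul_le_mul_of_nonneg_left _ hle; linarith
        _ = n / 6 - 5 / 6 := by field_simp; ring
        _ ≤ (E pair n).ncard := by linarith
    · filter_upwards [eventually_ge_atTop 20] with n hn
      have hn6 : 6 ≤ n := by omega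
      have hpos : (0 : ℝ) < n := by exact_mod_cast (by omega : 0 < n)
      have a1 : (n : ℝ) ≤ 2 * gap pair n + 9 := by exact_mod_cast gap_ge hn6
      have hn20 : (20 : ℝ) ≤ n := by exact_mod_cast hn
      have a4 : ((E pair n).ncard : ℝ) ≤ n / 6 + 2 := by
        have h := E_ncard n
        have h' : ((E pair n).ncard : ℝ) ≤ ((n / 6 : ℕ) : ℝ) + 2 := by exact_mod_cast h
        have h'' : ((n / 6 : ℕ) : ℝ) ≤ n / 6 := by exact_mod_cast Nat.cast_div_le
        linarith
      have hg : (0 : ℝ) < gap pair n := by linarith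
      rw [div_le_iff₀ hg]
      have : ((1 / 3 : ℝ) + 60 / n) * ((n - 9) / 2) ≤ ((1 / 3 : ℝ) + 60 / n) * gap pair n := by
        apply mul_le_mul_of_nonneg_left _ (by positivity); linarith
      refine le_trans ?_ this
      have h60 : (60 : ℝ) / n * 9 ≤ 27 := by
        rw [div_mul_eq_mul_div, div_le_iff₀ hpos]; linarith
      have e : ((1 / 3 : ℝ) + 60 / n) * ((n - 9) / 2) =
          n / 6 - 3 / 2 + 60 / n * n / 2 - 60 / n * 9 / 2 := by ring
      rw [e, div_mul_cancel₀ _ hpos.ne']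
      linarith
  · intro C
    obtain ⟨m, hm⟩ := exists_nat_gt (3 * C + 40)
    refine ⟨m + 6, by omega, ?_⟩
    have hn6 : 6 ≤ m + 6 := by omega
    have a1 : ((m + 6 : ℕ) : ℝ) ≤ 2 * gap pair (m + 6) + 9 := by exact_mod_cast gap_ge hn6
    have a4 : ((E pair (m + 6)).ncard : ℝ) ≤ ((m + 6 : ℕ) : ℝ) / 6 + 2 := by
      have h := E_ncard (m + 6)
      have h' : ((E pair (m + 6)).ncard : ℝ) ≤ (((m + 6) / 6 : ℕ) : ℝ) + 2 := by exact_mod_cast h
      have h'' : (((m + 6) / 6 : ℕ) : ℝ) ≤ ((m + 6 : ℕ) : ℝ) / 6 := by exact_mod_cast Nat.cast_div_le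
      linarith
    push_cast at a1 a4
    linarith

end Pool.Agent.Results.MP_4dddeb_co.ResidueClasses
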